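import Pool.Agent.H.MP_f12e57_an.Main

/-!
# MP_f12e57_an, Q1: the answer is no in every `ℂⁿ`, `n ≥ 3`

The domain is
`Ω = {z : |z₁|⁴|z₂|² + |z₁|⁸ + |z₂|⁸ + |z₃|² + ⋯ + |zₙ|² < 1}`.
It is a bounded complete Reinhardt domain with polynomial defining function. The norm of the
component of the Bergman projection which belongs to the monomial `e_c = z₁ z₃^c` is
`‖e_c‖_p ‖e_c‖_q / ‖e_c‖_2²` (`1/p + 1/q = 1`), and this tends to infinity with `c` for every
`p ≠ 2`: the sublevel sets of `|z₁|⁴|z₂|² + |z₁|⁸ + |z₂|⁸` have long thin tentacles, and the mass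
of `|z₁|^s` on them sits at the far end for `s > 2` and in the core for `s < 2`.
-/

set_option autoImplicit false

open MeasureTheory Set Pool.MPf12e57

namespace Pool.Agent.Results.MP_f12e57_an.BergmanOnlyL2

/-- **In every dimension `n ≥ 3` there is a bounded pseudoconvex domain `Ω ⊆ ℂⁿ` with smooth
boundary, of D'Angelo type at most `8` at every boundary point, whose Bergman projection is
bounded on `L^p(Ω)`, `1 < p < ∞`, only for `p = 2`.** -/
theorem result (n : ℕ) (hn : 3 ≤ n) :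
    ∃ Ω : Set (Fin n → ℂ), IsOpen Ω ∧ IsConnected Ω ∧ Bornology.IsBounded Ω ∧
      IsPseudoconvex Ω ∧
      (∃ ρ : (Fin n → ℂ) → ℝ, IsDefiningFunction ρ Ω ∧ ∀ p ∈ frontier Ω, TypeAtMost ρ p 8) ∧
      (∀ f : (Fin n → ℂ) → ℂ, MemLp f 2 (volume.restrict Ω) →
        ∃ g, IsBergmanProjection Ω f g ∧ ∀ g', IsBergmanProjection Ω f g' → EqOn g' g Ω) ∧
      LpInterval Ω = {2} :=
  main n hn

end Pool.Agent.Results.MP_f12e57_an.BergmanOnlyL2
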